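import Pool.Agent.Helper84.EK4.Defs
import Pool.Agent.Helper67.EK.E1c
set_option autoImplicit false
open Complex MeasureTheory Metric Set
open scoped Real ComplexConjugate Topology

/-! Project EK4: `2 Xf` is the derivative of a function which is univalent modulo `2 π i`. -/

namespace Pool.Agent.Helper50.EK4

open Pool.Agent.Helper39.Area Pool.Agent.Helper52.EK Pool.Agent.Helper67.EK

/-- a holomorphic function without zeros on an open convex set has a logarithm -/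
theorem exists_log {U : Set ℂ} (hU : IsOpen U) (hc : Convex ℝ U) (hne : U.Nonempty) {g : ℂ → ℂ}
    (hg : DifferentiableOn ℂ g U) (h0 : ∀ z ∈ U, g z ≠ 0) :
    ∃ F : ℂ → ℂ, (∀ z ∈ U, Complex.exp (F z) = g z) ∧
      ∀ z ∈ U, HasDerivAt F (deriv g z / g z) z := by
  have hs : IsSimplyConnected U := by
    have := hc.contractibleSpace hne
    exact (inferInstance : SimplyConnectedSpace U)
  obtain ⟨F, hFc, hF⟩ := Complex.exists_continuousOn_eqOn_exp_comp hs hU hg.continuousOn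
    (by rintro ⟨z, hz, hz0⟩; exact h0 z hz hz0)
  have hF' : ∀ z ∈ U, Complex.exp (F z) = g z := fun z hz => hF hz
  refine ⟨F, hF', fun z hz => ?_⟩
  have hUz : U ∈ 𝓝 z := hU.mem_nhds hz
  have hgz : HasDerivAt g (deriv g z) z := (hg.differentiableAt hUz).hasDerivAt
  have hFz : ContinuousAt F z := hFc.continuousAt hUz
  have h1 : HasDerivAt (fun w => Complex.log (g w / g z) + F z) (deriv g z / g z) z := by
    have h2 : HasDerivAt (fun w => g w / g z) (deriv g z / g z) z := hgz.div_const _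
    have h3 : g z / g z = 1 := div_self (h0 z hz)
    have h4 : g z / g z ∈ Complex.slitPlane := by rw [h3]; exact Complex.one_mem_slitPlane
    have h5 := (h2.clog h4).add_const (F z)
    simpa only [h3, div_one] using h5
  refine h1.congr_of_eventuallyEq ?_
  have h6 : ∀ᶠ w in 𝓝 z, ‖F w - F z‖ < π := by
    have := (hFz.sub continuousAt_const).norm (E := ℂ) (f := fun w => F w - F z)
    have h7 : ContinuousAt (fun w => ‖F w - F z‖) z := this
    refine h7.eventually_lt continuousAt_const ?_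
    simpa using Real.pi_pos
  filter_upwards [h6, hUz] with w hw hwU
  have h8 : g w / g z = Complex.exp (F w - F z) := by
    rw [Complex.exp_sub, hF' w hwU, hF' z hz]
  have h9 := Complex.abs_im_le_norm (F w - F z)
  have h10 := abs_lt.mp (lt_of_le_of_lt h9 hw)
  rw [h8, Complex.log_exp h10.1 h10.2.le]
  ring

theorem hasDerivAt_zf {ω : ℂ} (h : ω.re < 0) : HasDerivAt zf (zd ω) ω := by
  have h2 := I_add_ne (norm_exp_lt_one h)
  have h3 := Complex.hasDerivAt_exp ω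
  have h4 := (h3.const_sub I).div (h3.const_add I) h2
  refine h4.congr_deriv ?_
  unfold zd
  have h5 : Complex.exp ω + I ≠ 0 := by rw [add_comm]; exact h2
  field_simp
  ring

theorem hasDerivAt_phiR {β : ℂ → ℂ} {R : ℝ} (h : ExtR β R) {z : ℂ} (hz : z ∈ ball (0:ℂ) R)
    (h0 : z ≠ 0) : HasDerivAt (phi β) (dphi β z) z :=
  (hasDerivAt_inv h0).add (h.diff.differentiableAt (isOpen_ball.mem_nhds hz)).hasDerivAt

theorem zf_inj {ω₁ ω₂ : ℂ} (h₁ : ω₁.re < 0) (h₂ : ω₂.re < 0)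
    (hi₁ : 0 ≤ ω₁.im ∧ ω₁.im ≤ π) (hi₂ : 0 ≤ ω₂.im ∧ ω₂.im ≤ π) (h : zf ω₁ = zf ω₂) :
    ω₁ = ω₂ := by
  unfold zf at h
  rw [div_eq_div_iff (I_add_ne (norm_exp_lt_one h₁)) (I_add_ne (norm_exp_lt_one h₂))] at h
  have h3 : 2 * I * (Complex.exp ω₂ - Complex.exp ω₁) = 0 := by linear_combination h
  have h4 : Complex.exp ω₁ = Complex.exp ω₂ := by
    rcases mul_eq_zero.mp h3 with h5 | h5
    · exact absurd h5 (mul_ne_zero two_ne_zero I_ne_zero)
    · exact (sub_eq_zero.mp h5).symm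
  have hp := Real.pi_pos
  exact Complex.exp_inj_of_neg_pi_lt_of_le_pi (by linarith [hi₁.1]) hi₁.2 (by linarith [hi₂.1])
    hi₂.2 h4

theorem convex_Rect (x₁ x₂ : ℝ) : Convex ℝ (Rect x₁ x₂) :=
  ((convex_Icc x₁ x₂).is_linear_preimage (f := Complex.re) Complex.reLm.isLinear).inter
    ((convex_Icc 0 π).is_linear_preimage (f := Complex.im) Complex.imLm.isLinear)

theorem isCompact_Rect (x₁ x₂ : ℝ) : IsCompact (Rect x₁ x₂) :=
  isCompact_Icc.reProdIm isCompact_Icc

/-- `2 Xf` is the derivative of a function which is univalent modulo `2 π i` -/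
theorem injF_Xf {β : ℂ → ℂ} {R a : ℝ} (h : ExtR β R) (ha : 0 < a) (ha1 : a < 1) {x₁ x₂ : ℝ}
    (h1 : Real.log (tau a) < x₁) (h2 : x₂ < 0) :
    Pool.Agent.Helper84.EK4.InjF (Xf β a) x₁ x₂ := by
  set g : ℂ → ℂ := fun ω => phi β (zf ω) - phi β (a : ℂ) with hg
  have key : ∀ ω ∈ Rect x₁ x₂, ω.re < 0 ∧ zf ω ∈ ball (0:ℂ) R ∧ zf ω ≠ 0 ∧ g ω ≠ 0 := by
    intro ω hω
    obtain ⟨⟨hr1, hr2⟩, hi1, hi2⟩ := hω
    have hre : ω.re < 0 := lt_of_le_of_lt hr2 h2
    have hz : zf ω ∈ ball (0:ℂ) R := by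
      rw [mem_ball_zero_iff]
      exact lt_of_le_of_lt (norm_zf_le hre hi1 hi2) h.one_lt
    have haR : (a : ℂ) ∈ ball (0:ℂ) R := by
      rw [mem_ball_zero_iff, Complex.norm_real, Real.norm_of_nonneg ha.le]
      exact ha1.trans h.one_lt
    refine ⟨hre, hz, zf_ne_zero hre, ?_⟩
    exact phi_sub_ne h hz haR (zf_ne_zero hre) (by exact_mod_cast ha.ne')
      (zf_ne_a ha ha1 hre (lt_of_lt_of_le h1 hr1))
  have hga : ∀ ω ∈ Rect x₁ x₂, AnalyticAt ℂ g ω := by
    intro ω hω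
    obtain ⟨hre, hz, hz0, -⟩ := key ω hω
    exact ((phi_an h hz hz0).comp (zf_an hre)).sub analyticAt_const
  rcases (Rect x₁ x₂).eq_empty_or_nonempty with hE | hE
  · refine ⟨0, ?_, ?_, ?_⟩
    · rw [hE]; exact fun x hx => absurd hx (notMem_empty x)
    · rw [hE]; exact fun x hx => absurd hx (notMem_empty x)
    · rw [hE]; exact injOn_empty _
  set W : Set ℂ := {w | AnalyticAt ℂ g w ∧ g w ≠ 0} with hW
  have hWo : IsOpen W := by
    rw [isOpen_iff_mem_nhds]
    rintro w ⟨hw1, hw2⟩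
    exact hw1.eventually_analyticAt.and (hw1.continuousAt.eventually_ne hw2)
  have hRW : Rect x₁ x₂ ⊆ W := fun ω hω => ⟨hga ω hω, (key ω hω).2.2.2⟩
  obtain ⟨δ, hδ, hδW⟩ := (isCompact_Rect x₁ x₂).exists_thickening_subset_open hWo hRW
  have hRU : Rect x₁ x₂ ⊆ thickening δ (Rect x₁ x₂) := self_subset_thickening hδ _
  obtain ⟨F, hF1, hF2⟩ := exists_log (U := thickening δ (Rect x₁ x₂)) (g := g)
    isOpen_thickening ((convex_Rect x₁ x₂).thickening δ) (hE.mono hRU)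
    (fun w hw => (hδW hw).1.differentiableAt.differentiableWithinAt) (fun w hw => (hδW hw).2)
  refine ⟨F, ?_, ?_, ?_⟩
  · intro ω hω
    have hd : DifferentiableOn ℂ F (thickening δ (Rect x₁ x₂)) :=
      fun w hw => (hF2 w hw).differentiableAt.differentiableWithinAt
    exact hd.analyticAt (isOpen_thickening.mem_nhds (hRU hω))
  · intro ω hω
    obtain ⟨hre, hz, hz0, hne⟩ := key ω hω
    have h3 : HasDerivAt g (dphi β (zf ω) * zd ω) ω :=
      ((hasDerivAt_phiR h hz hz0).comp ω (hasDerivAt_zf hre)).sub_const _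
    have h4 := hF2 ω (hRU hω)
    rw [h3.deriv] at h4
    refine h4.congr_deriv ?_
    unfold Xf
    have hne' : phi β (zf ω) - phi β (a : ℂ) ≠ 0 := hne
    simp only [hg]
    field_simp
  · intro ω₁ hω₁ ω₂ hω₂ he
    obtain ⟨hre₁, hz₁, hz₁0, -⟩ := key ω₁ hω₁
    obtain ⟨hre₂, hz₂, hz₂0, -⟩ := key ω₂ hω₂
    have h3 : g ω₁ = g ω₂ := by
      rw [← hF1 ω₁ (hRU hω₁), ← hF1 ω₂ (hRU hω₂)]
      exact he
    have h4 : phi β (zf ω₁) = phi β (zf ω₂) := by
      have h5 : phi β (zf ω₁) - phi β (a : ℂ) = phi β (zf ω₂) - phi β (a : ℂ) := h3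
      linear_combination h5
    exact zf_inj hre₁ hre₂ hω₁.2 hω₂.2 (h.inj _ _ hz₁ hz₂ hz₁0 hz₂0 h4)

end Pool.Agent.Helper50.EK4
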